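import Pool.Agent.H699.MW.Defs

/-!
The laws of the messages are probability measures with support in the interval of possible values.
-/

set_option autoImplicit false

open MeasureTheory Finset

namespace Pool.Agent.H180.MW.LPR

open Pool.Agent.H699.MW

theorem le_pmax {ι : Type*} (s : Finset ι) (x : ι → ℝ) {i : ι} (hi : i ∈ s) : x i ≤ pmax s x :=
  (Finset.le_fold_max (x i)).2 (Or.inr ⟨i, hi, le_rfl⟩)

theorem pmax_nonneg {ι : Type*} (s : Finset ι) (x : ι → ℝ) : 0 ≤ pmax s x :=
  (Finset.le_fold_max (0 : ℝ)).2 (Or.inl le_rfl)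

theorem pmax_le {ι : Type*} (s : Finset ι) (x : ι → ℝ) {c : ℝ} (hc : 0 ≤ c)
    (h : ∀ i ∈ s, x i ≤ c) : pmax s x ≤ c :=
  (Finset.fold_max_le c).2 ⟨hc, h⟩

theorem pmax_mono {ι : Type*} (s : Finset ι) (x y : ι → ℝ) (h : ∀ i ∈ s, x i ≤ y i) :
    pmax s x ≤ pmax s y :=
  pmax_le s x (pmax_nonneg s y) fun i hi => (h i hi).trans (le_pmax s y hi)

theorem measurable_pmax {k : ℕ} (s : Finset (Fin k)) :
    Measurable fun p : Fin k → ℝ × ℝ => pmax s fun i => (p i).1 - (p i).2 := by
  classical
  induction s using Finset.induction_on with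
  | empty =>
    have h : (fun p : Fin k → ℝ × ℝ => pmax ∅ fun i => (p i).1 - (p i).2) = fun _ => 0 := by
      funext p
      exact Finset.fold_empty
    rw [h]
    exact measurable_const
  | insert i s hi ih =>
    have h : (fun p : Fin k → ℝ × ℝ => pmax (insert i s) fun i => (p i).1 - (p i).2) =
        fun p => max ((p i).1 - (p i).2) (pmax s fun i => (p i).1 - (p i).2) := by
      funext p
      exact Finset.fold_insert hi
    rw [h]
    exact (((measurable_fst.comp (measurable_pi_apply i)).sub
      (measurable_snd.comp (measurable_pi_apply i))).max ih)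

theorem t_LPR : S_LPR := by
  classical
  intro μ a b hG n
  have hμ : IsProbabilityMeasure μ := ⟨hG.prob⟩
  have hab : a ≤ b := hG.lt.le
  have hb : 0 ≤ b := hG.nn.trans hab
  have hsupp : ∀ᵐ x ∂μ, a ≤ x ∧ x ≤ b := by
    rw [ae_iff]
    exact hG.supp
  induction n with
  | zero =>
    intro T
    have e0 : ext a b 0 T false = 0 := rfl
    have e1 : ext a b 0 T true = b := rfl
    have l0 : law μ b 0 T false = Measure.dirac 0 := rfl
    have l1 : law μ b 0 T true = Measure.dirac b := rfl
    rw [e0, e1]
    refine ⟨fun s => ?_, le_rfl, hb, le_rfl, fun s => ?_, fun s => ?_⟩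
    · cases s
      · rw [l0]; infer_instance
      · rw [l1]; infer_instance
    · cases s
      · rw [l0, Measure.dirac_apply' _ measurableSet_Iio]
        simp
      · rw [l1, Measure.dirac_apply' _ measurableSet_Iio]
        simp [hb]
    · cases s
      · rw [l0, Measure.dirac_apply' _ measurableSet_Ioi]
        simp [hb]
      · rw [l1, Measure.dirac_apply' _ measurableSet_Ioi]
        simp
  | succ n ih =>
    rintro ⟨k, c⟩
    have hlaw : ∀ s, law μ b (n + 1) (.node k c) s =
        (Measure.pi fun i => μ.prod (law μ b n (c i) (!s))).map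
          fun p => pmax univ fun i => (p i).1 - (p i).2 := fun s => rfl
    have e0 : ext a b (n + 1) (.node k c) false =
        pmax univ fun i : Fin k => a - ext a b n (c i) true := rfl
    have e1 : ext a b (n + 1) (.node k c) true =
        pmax univ fun i : Fin k => b - ext a b n (c i) false := rfl
    have hprob : ∀ s i, IsProbabilityMeasure (law μ b n (c i) s) := fun s i => (ih (c i)).1 s
    have hae : ∀ s, ∀ᵐ p ∂(Measure.pi fun i => μ.prod (law μ b n (c i) (!s))),
        ∀ i : Fin k, (a ≤ (p i).1 ∧ (p i).1 ≤ b) ∧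
          (ext a b n (c i) false ≤ (p i).2 ∧ (p i).2 ≤ ext a b n (c i) true) := by
      intro s
      have := fun i => hprob (!s) i
      rw [ae_all_iff]
      intro i
      have h1 : ∀ᵐ q ∂(μ.prod (law μ b n (c i) (!s))), (a ≤ q.1 ∧ q.1 ≤ b) ∧
          (ext a b n (c i) false ≤ q.2 ∧ q.2 ≤ ext a b n (c i) true) := by
        have h2 : ∀ᵐ q ∂(μ.prod (law μ b n (c i) (!s))), a ≤ q.1 ∧ q.1 ≤ b :=
          Measure.quasiMeasurePreserving_fst.ae hsupp
        have h3 : ∀ᵐ y ∂(law μ b n (c i) (!s)),
            ext a b n (c i) false ≤ y ∧ y ≤ ext a b n (c i) true := by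
          obtain ⟨-, -, -, -, h4, h5⟩ := ih (c i)
          have h6 : ∀ᵐ y ∂(law μ b n (c i) (!s)), ext a b n (c i) false ≤ y := by
            rw [ae_iff]
            refine measure_mono_null (fun y hy => ?_) (h4 (!s))
            exact not_le.1 hy
          have h7 : ∀ᵐ y ∂(law μ b n (c i) (!s)), y ≤ ext a b n (c i) true := by
            rw [ae_iff]
            refine measure_mono_null (fun y hy => ?_) (h5 (!s))
            exact not_le.1 hy
          filter_upwards [h6, h7] with y h8 h9 using ⟨h8, h9⟩
        have h4 : ∀ᵐ q ∂(μ.prod (law μ b n (c i) (!s))),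
            ext a b n (c i) false ≤ q.2 ∧ q.2 ≤ ext a b n (c i) true :=
          Measure.quasiMeasurePreserving_snd.ae h3
        filter_upwards [h2, h4] with q h5 h6 using ⟨h5, h6⟩
      exact (measurePreserving_eval (fun i => μ.prod (law μ b n (c i) (!s))) i).quasiMeasurePreserving.ae h1
    have hm := measurable_pmax (univ : Finset (Fin k))
    rw [e0, e1]
    refine ⟨fun s => ?_, pmax_nonneg _ _, ?_, ?_, fun s => ?_, fun s => ?_⟩
    · rw [hlaw]
      have := fun i => hprob (!s) i
      exact Measure.isProbabilityMeasure_map hm.aemeasurable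
    · refine pmax_mono _ _ _ fun i _ => ?_
      have := (ih (c i)).2.2.1
      linarith
    · refine pmax_le _ _ hb fun i _ => ?_
      have := (ih (c i)).2.1
      linarith
    · rw [hlaw, Measure.map_apply hm measurableSet_Iio]
      refine measure_mono_null (fun p hp => ?_) (ae_iff.1 (hae s))
      intro hall
      have h1 : pmax univ (fun i : Fin k => a - ext a b n (c i) true) ≤
          pmax univ fun i => (p i).1 - (p i).2 :=
        pmax_mono _ _ _ fun i _ => by
          obtain ⟨⟨h2, -⟩, -, h3⟩ := hall i
          linarith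
      exact absurd hp (not_lt.2 h1)
    · rw [hlaw, Measure.map_apply hm measurableSet_Ioi]
      refine measure_mono_null (fun p hp => ?_) (ae_iff.1 (hae s))
      intro hall
      have h1 : pmax univ (fun i => (p i).1 - (p i).2) ≤
          pmax univ (fun i : Fin k => b - ext a b n (c i) false) :=
        pmax_mono _ _ _ fun i _ => by
          obtain ⟨⟨-, h2⟩, h3, -⟩ := hall i
          linarith
      exact absurd hp (not_lt.2 h1)

end Pool.Agent.H180.MW.LPR
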